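import Mathlib

/-!
Displacement matrices for the final layer of the Zauner project (MP_d0f9e0_co).
`z` is a primitive `2d`-th root of unity, `E d z k` is the displacement matrix of `k : ℤ × ℤ`.
-/

set_option autoImplicit false

namespace Pool.Agent.Lib.MP_d0f9e0_co.EN

/-- The symplectic form. -/
def w (k l : ℤ × ℤ) : ℤ := k.1 * l.2 - k.2 * l.1

/-- The exponent of the quasi-period sign. -/
def qs (d : ℕ) (k v : ℤ × ℤ) : ℤ :=
  k.1 * v.2 + k.2 * v.1 + d * (v.1 ^ 2 + v.1 * v.2 + v.2 ^ 2)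

/-- `k` is in the lattice `d ℤ²`. -/
def Lat (d : ℕ) (k : ℤ × ℤ) : Prop := (d : ℤ) ∣ k.1 ∧ (d : ℤ) ∣ k.2

instance (d : ℕ) (k : ℤ × ℤ) : Decidable (Lat d k) := by unfold Lat; infer_instance

/-- The displacement matrix. -/
noncomputable def E (d : ℕ) (z : ℂ) (k : ℤ × ℤ) : Matrix (ZMod d) (ZMod d) ℂ :=
  fun i j => if i = j + (k.1 : ZMod d) then z ^ (d * (k.1 + k.2) + k.1 * k.2 + 2 * k.2 * (j.val : ℤ)) else 0

section basics

variable {d : ℕ} [NeZero d] {z : ℂ}


lemma two_d_ne (d : ℕ) [NeZero d] : 2 * d ≠ 0 := by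
  have := NeZero.ne d
  omega

lemma zpow_congr (hz : IsPrimitiveRoot z (2 * d))  {m n : ℤ}
    (h : (2 * (d : ℤ)) ∣ m - n) : z ^ m = z ^ n := by
  have hz0 : z ≠ 0 := hz.ne_zero (two_d_ne d)
  have h1 : z ^ (m - n) = 1 := by
    rw [hz.zpow_eq_one_iff_dvd]
    simpa using h
  rw [zpow_sub₀ hz0] at h1
  exact (div_eq_one_iff_eq (zpow_ne_zero _ hz0)).mp h1

lemma z_pow_d (hz : IsPrimitiveRoot z (2 * d))  : z ^ (d : ℤ) = -1 := by
  have h2 : (z ^ (d : ℤ)) ^ 2 = 1 := by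
    rw [← zpow_natCast, ← zpow_mul]
    rw [hz.zpow_eq_one_iff_dvd]
    push_cast
    exact ⟨1, by ring⟩
  have hne : z ^ (d : ℤ) ≠ 1 := by
    intro h
    rw [hz.zpow_eq_one_iff_dvd] at h
    push_cast at h
    have hp : 0 < d := Nat.pos_of_ne_zero (NeZero.ne d)
    have := Int.le_of_dvd (by omega) h
    omega
  rcases mul_eq_zero.mp (show (z ^ (d : ℤ) - 1) * (z ^ (d : ℤ) + 1) = 0 by linear_combination h2) with h | h
  · exact absurd (sub_eq_zero.mp h) hne
  · exact eq_neg_of_add_eq_zero_left h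

lemma val_add_cast  (j : ZMod d) (a : ℤ) :
    (d : ℤ) ∣ ((j + (a : ZMod d)).val : ℤ) - ((j.val : ℤ) + a) := by
  rw [← ZMod.intCast_zmod_eq_zero_iff_dvd]
  push_cast
  simp

lemma E_mul (hz : IsPrimitiveRoot z (2 * d))  (k l : ℤ × ℤ) :
    E d z k * E d z l = z ^ (-(w k l)) • E d z (k + l) := by
  have hz0 : z ≠ 0 := hz.ne_zero (two_d_ne d)
  ext i j
  rw [Matrix.mul_apply, Matrix.smul_apply]
  rw [Finset.sum_eq_single (j + (l.1 : ZMod d))]
  · simp only [E, if_true, Prod.fst_add, Prod.snd_add, Int.cast_add, smul_eq_mul]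
    have e1 : j + (l.1 : ZMod d) + (k.1 : ZMod d) = j + ((k.1 : ZMod d) + (l.1 : ZMod d)) := by ring
    rw [e1]
    by_cases h : i = j + ((k.1 : ZMod d) + (l.1 : ZMod d))
    · rw [if_pos h, if_pos h, ← zpow_add₀ hz0, ← zpow_add₀ hz0]
      apply zpow_congr hz
      obtain ⟨q, hq⟩ := val_add_cast j l.1
      have hq' : ((j + (l.1 : ZMod d)).val : ℤ) = (j.val : ℤ) + l.1 + d * q := by linarith
      rw [hq']
      refine ⟨k.2 * q, ?_⟩
      simp only [w]
      ring
    · rw [if_neg h, if_neg h]; simp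
  · intro m _ hm
    have h0 : E d z l m j = 0 := by simp only [E]; rw [if_neg hm]
    rw [h0, mul_zero]
  · intro h; exact absurd (Finset.mem_univ _) h

lemma E_zero  : E d z 0 = 1 := by
  ext i j
  simp only [E, Prod.fst_zero, Prod.snd_zero, Int.cast_zero, add_zero, Matrix.one_apply]
  by_cases h : i = j
  · simp [h]
  · simp [h]

lemma w_self (k : ℤ × ℤ) : w k k = 0 := by simp [w]; ring

lemma w_neg_right (k l : ℤ × ℤ) : w k (-l) = - w k l := by simp [w]; ring

lemma w_neg_left (k l : ℤ × ℤ) : w (-k) l = - w k l := by simp [w]; ring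

lemma w_add_right (k l m : ℤ × ℤ) : w k (l + m) = w k l + w k m := by simp [w]; ring

lemma w_add_left (k l m : ℤ × ℤ) : w (k + l) m = w k m + w l m := by simp [w]; ring

lemma w_sub_right (k l m : ℤ × ℤ) : w k (l - m) = w k l - w k m := by simp [w]; ring

lemma w_swap (k l : ℤ × ℤ) : w l k = - w k l := by simp [w]; ring

lemma E_neg_mul (hz : IsPrimitiveRoot z (2 * d))  (k : ℤ × ℤ) :
    E d z (-k) * E d z k = 1 := by
  rw [E_mul hz, w_neg_left, w_self]
  simp [E_zero]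

lemma E_mul_neg (hz : IsPrimitiveRoot z (2 * d))  (k : ℤ × ℤ) :
    E d z k * E d z (-k) = 1 := by
  rw [E_mul hz, w_neg_right, w_self]
  simp [E_zero]

/-- Conjugation by a displacement matrix. -/
lemma E_conj (hz : IsPrimitiveRoot z (2 * d))  (l k : ℤ × ℤ) :
    E d z l * E d z k * E d z (-l) = z ^ (-(2 * w l k)) • E d z k := by
  have hz0 : z ≠ 0 := hz.ne_zero (two_d_ne d)
  rw [E_mul hz, Matrix.smul_mul, E_mul hz, smul_smul, ← zpow_add₀ hz0]
  have e1 : l + k + -l = k := by abel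
  rw [e1]
  have e2 : -w l k + -w (l + k) (-l) = -(2 * w l k) := by
    rw [w_neg_right, w_add_left, w_self, w_swap l k]; ring
  rw [e2]

/-- Quasi-periodicity. -/
lemma E_per (hz : IsPrimitiveRoot z (2 * d))  (k v : ℤ × ℤ) :
    E d z (k + (d : ℤ) • v) = (-1 : ℂ) ^ (qs d k v) • E d z k := by
  have hz0 : z ≠ 0 := hz.ne_zero (two_d_ne d)
  ext i j
  rw [← z_pow_d hz, ← zpow_mul, Matrix.smul_apply]
  simp only [E, Prod.fst_add, Prod.snd_add, Prod.smul_fst, Prod.smul_snd, Int.cast_add, smul_eq_mul,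
    Int.cast_mul, Int.cast_natCast, CharP.cast_eq_zero, zero_mul, add_zero]
  by_cases h : i = j + (k.1 : ZMod d)
  · rw [if_pos h, if_pos h, ← zpow_add₀ hz0]
    apply zpow_congr hz
    obtain ⟨e, he⟩ : (2 : ℤ) ∣ v.1 ^ 2 - v.1 := by
      have := Int.even_mul_pred_self v.1
      have h2 : v.1 ^ 2 - v.1 = v.1 * (v.1 - 1) := by ring
      rw [h2]; exact this.two_dvd
    obtain ⟨f, hf⟩ : (2 : ℤ) ∣ v.2 ^ 2 - v.2 := by
      have := Int.even_mul_pred_self v.2
      have h2 : v.2 ^ 2 - v.2 = v.2 * (v.2 - 1) := by ring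
      rw [h2]; exact this.two_dvd
    have e1 : v.1 ^ 2 = v.1 + 2 * e := by linarith
    have e2 : v.2 ^ 2 = v.2 + 2 * f := by linarith
    simp only [qs]
    rw [e1, e2]
    exact ⟨v.2 * (j.val : ℤ) - d * e - d * f, by ring⟩
  · rw [if_neg h, if_neg h]; simp

/-- Trace. -/
lemma trace_E_of_not (hz : IsPrimitiveRoot z (2 * d))  (k : ℤ × ℤ) (hk : ¬ Lat d k) :
    Matrix.trace (E d z k) = 0 := by
  have hz0 : z ≠ 0 := hz.ne_zero (two_d_ne d)
  have key : ∀ l : ℤ × ℤ, z ^ (-(2 * w l k)) * Matrix.trace (E d z k) = Matrix.trace (E d z k) := by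
    intro l
    have h1 := congrArg Matrix.trace (E_conj hz l k)
    rw [Matrix.trace_smul, Matrix.trace_mul_cycle, E_neg_mul hz, Matrix.one_mul, smul_eq_mul] at h1
    exact h1.symm
  by_contra hne
  have hall : ∀ l : ℤ × ℤ, z ^ (-(2 * w l k)) = 1 := fun l =>
    mul_right_cancel₀ hne (by rw [key l, one_mul])
  apply hk
  constructor
  · have h := hall (0, 1)
    rw [hz.zpow_eq_one_iff_dvd] at h
    simp only [w] at h
    push_cast at h
    obtain ⟨q, hq⟩ := h
    exact ⟨q, by linarith⟩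
  · have h := hall (1, 0)
    rw [hz.zpow_eq_one_iff_dvd] at h
    simp only [w] at h
    push_cast at h
    obtain ⟨q, hq⟩ := h
    exact ⟨-q, by linarith⟩

lemma trace_E_zero  : Matrix.trace (E d z 0) = d := by
  rw [E_zero, Matrix.trace_one, ZMod.card]

lemma star_z (hz : IsPrimitiveRoot z (2 * d))  : star z = z⁻¹ := by
  have hn : ‖z‖ = 1 := Complex.norm_eq_one_of_pow_eq_one hz.pow_eq_one (two_d_ne d)
  have : star z = (starRingEnd ℂ) z := rfl
  rw [this, Complex.inv_def, Complex.normSq_eq_norm_sq, hn]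
  simp

/-- The displacement matrices are unitary. -/
lemma E_star (hz : IsPrimitiveRoot z (2 * d))  (k : ℤ × ℤ) :
    (E d z k).conjTranspose = E d z (-k) := by
  have hz0 : z ≠ 0 := hz.ne_zero (two_d_ne d)
  ext i j
  rw [Matrix.conjTranspose_apply]
  simp only [E, Prod.fst_neg, Prod.snd_neg, Int.cast_neg]
  by_cases h : j = i + (k.1 : ZMod d)
  · have h' : i = j + -(k.1 : ZMod d) := by rw [h]; ring
    rw [if_pos h, if_pos h', star_zpow₀, star_z hz, inv_zpow, ← zpow_neg]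
    apply zpow_congr hz
    obtain ⟨q, hq⟩ := val_add_cast i k.1
    have hq' : (j.val : ℤ) = (i.val : ℤ) + k.1 + d * q := by rw [h]; linarith
    rw [hq']
    exact ⟨k.2 * q, by ring⟩
  · have h' : ¬ i = j + -(k.1 : ZMod d) := by
      intro h2; apply h; rw [h2]; ring
    rw [if_neg h, if_neg h']; simp

end basics

end Pool.Agent.Lib.MP_d0f9e0_co.EN
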